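import Mathlib

/-!
An infinite graph with boundary whose fundamental modules are all flat but not all free.
-/

namespace Pool.Agent.Results.MP_2ddb17_co.FlatNotFree

open Module

universe u

section defs

variable {V : Type*} {R : Type*} [CommRing R]

/-- The generalized Laplacian with edge weights `w` and vertex coefficients `d`, applied to the
basis vector of the vertex `x`. -/
noncomputable def lap (G : SimpleGraph V) (hlf : ∀ x, (G.neighborSet x).Finite) (w : V → V → R)
    (d : V → R) (x : V) : V →₀ R :=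
  d x • Finsupp.single x 1 +
    ∑ y ∈ (hlf x).toFinset, w x y • (Finsupp.single x (1 : R) - Finsupp.single y 1)

/-- The submodule `L (R V°)`, where `B` is the set of boundary vertices. -/
noncomputable def relations (G : SimpleGraph V) (hlf : ∀ x, (G.neighborSet x).Finite) (B : Set V)
    (w : V → V → R) (d : V → R) : Submodule R (V →₀ R) :=
  Submodule.span R (lap G hlf w d '' Bᶜ)

/-- The fundamental module `R V / L (R V°)`. -/
abbrev Upsilon (G : SimpleGraph V) (hlf : ∀ x, (G.neighborSet x).Finite) (B : Set V)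
    (w : V → V → R) (d : V → R) : Type _ :=
  (V →₀ R) ⧸ relations G hlf B w d

/-- `(G, L)` is an `R^×`-network: the weights are symmetric and are units on the edges. -/
def IsNetwork (G : SimpleGraph V) (w : V → V → R) : Prop :=
  (∀ x y, w x y = w y x) ∧ ∀ x y, G.Adj x y → IsUnit (w x y)

end defs

/-- Quotients by relations with triangular unit pivots are flat. -/
theorem flat_of_pivots {R F : Type*} [CommRing R] [AddCommGroup F] [Module R F] [Flat R F]
    (r : ℕ → F) (φ : ℕ → F →ₗ[R] R) (h1 : ∀ i, φ i (r i) = 1) (h2 : ∀ i k, i < k → φ i (r k) = 0) :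
    Flat R (F ⧸ Submodule.span R (Set.range r)) := by
  classical
  set N := Submodule.span R (Set.range r) with hN
  have hrN : ∀ i, r i ∈ N := fun i => Submodule.subset_span ⟨i, rfl⟩
  -- the retractions
  have hstep : ∀ k : ℕ, ∃ e : F →ₗ[R] F, (∀ i, i < k → e (r i) = 0) ∧ (∀ v, e v - v ∈ N) ∧
      (∀ v, (∀ i, i < k → φ i v = 0) → e v = v) := by
    intro k
    induction k with
    | zero => exact ⟨LinearMap.id, fun i hi => by omega, fun v => by simp, fun v _ => rfl⟩
    | succ k ih =>
      obtain ⟨e, he1, he2, he3⟩ := ih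
      refine ⟨e - (LinearMap.toSpanSingleton R F (r k)).comp ((φ k).comp e), ?_, ?_, ?_⟩
      · intro i hi
        simp only [LinearMap.sub_apply, LinearMap.comp_apply, LinearMap.toSpanSingleton_apply]
        by_cases hik : i = k
        · subst hik
          have : e (r i) = r i := he3 _ (fun j hj => h2 j i hj)
          rw [this, h1, one_smul, sub_self]
        · rw [he1 i (by omega)]
          simp
      · intro v
        simp only [LinearMap.sub_apply, LinearMap.comp_apply, LinearMap.toSpanSingleton_apply]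
        have : e v - φ k (e v) • r k - v = (e v - v) - φ k (e v) • r k := by abel
        rw [this]
        exact N.sub_mem (he2 v) (N.smul_mem _ (hrN k))
      · intro v hv
        simp only [LinearMap.sub_apply, LinearMap.comp_apply, LinearMap.toSpanSingleton_apply]
        rw [he3 v (fun i hi => hv i (by omega)), hv k (by omega)]
        simp
  apply Flat.of_forall_isTrivialRelation
  intro l f x hfx
  -- lift
  choose y hy using fun i => Submodule.Quotient.mk_surjective N (x i)
  have hmem : ∑ i, f i • y i ∈ N := by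
    rw [← Submodule.Quotient.mk_eq_zero, ← Submodule.mkQ_apply, map_sum]
    simp only [map_smul, Submodule.mkQ_apply, hy]
    exact hfx
  -- it lies in the span of finitely many relations
  obtain ⟨c, hc⟩ := (Finsupp.mem_span_range_iff_exists_finsupp).mp hmem
  obtain ⟨k, hk⟩ : ∃ k : ℕ, ∀ i ∈ c.support, i < k := by
    refine ⟨c.support.sup id + 1, fun i hi => ?_⟩
    have := Finset.le_sup (f := id) hi
    simp only [id] at this
    omega
  obtain ⟨e, he1, he2, he3⟩ := hstep k
  have hzero : ∑ i, f i • e (y i) = 0 := by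
    have : e (∑ i, f i • y i) = 0 := by
      rw [← hc, Finsupp.sum, map_sum]
      apply Finset.sum_eq_zero
      intro i hi
      rw [map_smul, he1 i (hk i hi), smul_zero]
    rw [map_sum] at this
    simpa using this
  obtain ⟨n, a, z, hz1, hz2⟩ := Flat.isTrivialRelation_of_sum_smul_eq_zero hzero
  refine ⟨n, a, fun j => Submodule.Quotient.mk (z j), fun i => ?_, hz2⟩
  have h3 : x i = Submodule.Quotient.mk (e (y i)) := by
    rw [← hy i]
    symm
    exact (Submodule.Quotient.eq N).mpr (he2 (y i))
  have h4 : e (y i) = ∑ j, a i j • z j := hz1 i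
  rw [h3, h4, ← Submodule.mkQ_apply, map_sum]
  simp [Submodule.mkQ_apply]

/-- The vertices. -/
inductive Vx : Type
  | g (n : ℕ) : Vx
  | f (n : ℕ) : Vx
  | x (n : ℕ) : Vx
  deriving DecidableEq

open Vx

/-- The oriented edges. -/
def E : Vx → Vx → Prop
  | g n, g m => m = n + 1
  | g n, f m => m = n
  | f n, x m => m = n
  | x n, g m => m = n + 1
  | _, _ => False

/-- The graph: a chain of 4-cycles `g n, f n, x n, g (n+1)`. -/
def Gr : SimpleGraph Vx where
  Adj u v := E u v ∨ E v u
  symm := ⟨fun _ _ h => h.symm⟩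
  loopless := ⟨fun u h => by cases u <;> simp [E] at h⟩

theorem nb_x (n : ℕ) : Gr.neighborSet (x n) = {f n, g (n + 1)} := by
  ext v
  simp only [SimpleGraph.mem_neighborSet, Gr, Set.mem_insert_iff, Set.mem_singleton_iff]
  cases v <;> simp [E] <;> tauto

theorem nb_f (n : ℕ) : Gr.neighborSet (f n) = {g n, x n} := by
  ext v
  simp only [SimpleGraph.mem_neighborSet, Gr, Set.mem_insert_iff, Set.mem_singleton_iff]
  cases v <;> simp [E] <;> tauto

theorem nb_g0 : Gr.neighborSet (g 0) = {g 1, f 0} := by
  ext v
  simp only [SimpleGraph.mem_neighborSet, Gr, Set.mem_insert_iff, Set.mem_singleton_iff]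
  cases v <;> simp [E]

theorem nb_g (n : ℕ) : Gr.neighborSet (g (n + 1)) = {g n, g (n + 2), f (n + 1), x n} := by
  ext v
  simp only [SimpleGraph.mem_neighborSet, Gr, Set.mem_insert_iff, Set.mem_singleton_iff]
  cases v <;> simp [E] <;> omega

theorem locFinite : ∀ v, (Gr.neighborSet v).Finite := by
  intro v
  cases v with
  | g n =>
    cases n with
    | zero => rw [nb_g0]; simp
    | succ n => rw [nb_g]; simp
  | f n => rw [nb_f]; simp
  | x n => rw [nb_x]; simp

/-- The boundary: `g 0` and all `f n`. -/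
def B : Set Vx := {v | v = g 0 ∨ ∃ n, v = f n}

theorem mem_compl_B (v : Vx) : v ∈ Bᶜ ↔ (∃ n, v = x n) ∨ ∃ n, v = g (n + 1) := by
  cases v with
  | g n => cases n <;> simp [B]
  | f n => simp [B]
  | x n => simp [B]

theorem lap_apply {R : Type*} [CommRing R] (w : Vx → Vx → R) (d : Vx → R) (u v : Vx)
    (huv : u ≠ v) (c : R) (hc1 : Gr.Adj u v → c = - w u v) (hc2 : ¬ Gr.Adj u v → c = 0) :
    lap Gr locFinite w d u v = c := by
  classical
  unfold lap
  rw [Finsupp.add_apply, Finsupp.finsetSum_apply]
  have h1 : (d u • Finsupp.single u (1 : R)) v = 0 := by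
    simp [huv]
  have h2 : ∀ y ∈ (locFinite u).toFinset,
      (w u y • (Finsupp.single u (1 : R) - Finsupp.single y 1) : Vx →₀ R) v =
        if y = v then - w u v else 0 := by
    intro y _
    rw [Finsupp.smul_apply, Finsupp.sub_apply, Finsupp.single_apply, Finsupp.single_apply,
      if_neg huv]
    by_cases h : y = v
    · subst h; simp
    · simp [h]
  rw [h1, Finset.sum_congr rfl h2, Finset.sum_ite_eq']
  simp only [Set.Finite.mem_toFinset, SimpleGraph.mem_neighborSet, zero_add]
  by_cases h : Gr.Adj u v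
  · rw [if_pos h, hc1 h]
  · rw [if_neg h, hc2 h]

theorem flat {R : Type u} [CommRing R] (w : Vx → Vx → R) (d : Vx → R) (hw : IsNetwork Gr w) :
    Flat R (Upsilon Gr locFinite B w d) := by
  classical
  have ax : ∀ n, Gr.Adj (x n) (f n) := fun n => Or.inr rfl
  have ag : ∀ n, Gr.Adj (g (n + 1)) (x n) := fun n => Or.inr rfl
  -- rows
  let row : ℕ → Vx := fun i => if i % 2 = 0 then x (i / 2) else g (i / 2 + 1)
  let piv : ℕ → Vx := fun i => if i % 2 = 0 then f (i / 2) else x (i / 2)
  have hadj : ∀ i, Gr.Adj (row i) (piv i) := by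
    intro i
    simp only [row, piv]
    split_ifs
    · exact ax _
    · exact ag _
  let r : ℕ → (Vx →₀ R) := fun i => lap Gr locFinite w d (row i)
  let φ : ℕ → ((Vx →₀ R) →ₗ[R] R) := fun i =>
    (-((hw.2 _ _ (hadj i)).unit⁻¹ : Rˣ) : R) • Finsupp.lapply (piv i)
  have hset : relations Gr locFinite B w d = Submodule.span R (Set.range r) := by
    unfold relations
    congr 1
    ext v
    constructor
    · rintro ⟨u, hu, rfl⟩
      rw [mem_compl_B] at hu
      rcases hu with ⟨n, rfl⟩ | ⟨n, rfl⟩
      · refine ⟨2 * n, ?_⟩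
        simp only [r, row]
        rw [if_pos (by omega), show 2 * n / 2 = n by omega]
      · refine ⟨2 * n + 1, ?_⟩
        simp only [r, row]
        rw [if_neg (by omega), show (2 * n + 1) / 2 = n by omega]
    · rintro ⟨i, rfl⟩
      refine ⟨row i, ?_, rfl⟩
      rw [mem_compl_B]
      simp only [row]
      split_ifs
      · exact Or.inl ⟨_, rfl⟩
      · exact Or.inr ⟨_, rfl⟩
  unfold Upsilon
  rw [hset]
  apply flat_of_pivots r φ
  · intro i
    have hne : row i ≠ piv i := (hadj i).ne
    simp only [φ, r, LinearMap.smul_apply, Finsupp.lapply_apply]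
    rw [lap_apply w d (row i) (piv i) hne (- w (row i) (piv i)) (fun _ => rfl)
      (fun h => absurd (hadj i) h)]
    simp
  · intro i k hik
    simp only [φ, r, LinearMap.smul_apply, Finsupp.lapply_apply]
    have hna : ¬ Gr.Adj (row k) (piv i) ∧ row k ≠ piv i := by
      simp only [row, piv, Gr]
      split_ifs
      · simp [E]; omega
      · simp [E]; omega
      · simp [E]; omega
      · simp [E]; omega
    rw [lap_apply w d (row k) (piv i) hna.2 0 (fun h => absurd h hna.1) (fun _ => rfl)]
    simp

/-- The special vertex coefficients over `ℤ`. -/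
def dZ : Vx → ℤ
  | g _ => -2
  | f _ => 0
  | x _ => -4

/-- All weights are one. -/
def wZ : Vx → Vx → ℤ := fun _ _ => 1

theorem lap_x (n : ℕ) : lap Gr locFinite wZ dZ (x n) =
    (-2 : ℤ) • Finsupp.single (x n) 1 - Finsupp.single (f n) 1 - Finsupp.single (g (n + 1)) 1 := by
  have h : (locFinite (x n)).toFinset = {f n, g (n + 1)} := by
    ext v
    rw [Set.Finite.mem_toFinset, nb_x]
    simp
  unfold lap
  rw [h, Finset.sum_pair (by simp)]
  simp only [dZ, wZ, one_smul]
  module

theorem lap_g (n : ℕ) : lap Gr locFinite wZ dZ (g (n + 1)) =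
    (2 : ℤ) • Finsupp.single (g (n + 1)) 1 - Finsupp.single (g n) 1 -
      Finsupp.single (g (n + 2)) 1 - Finsupp.single (f (n + 1)) 1 - Finsupp.single (x n) 1 := by
  have h : (locFinite (g (n + 1))).toFinset = {g n, g (n + 2), f (n + 1), x n} := by
    ext v
    rw [Set.Finite.mem_toFinset, nb_g]
    simp
  unfold lap
  rw [h, Finset.sum_insert (by simp), Finset.sum_insert (by simp), Finset.sum_insert (by simp),
    Finset.sum_singleton]
  simp only [dZ, wZ, one_smul]
  module

/-- The functional witnessing that a divisible element is nonzero. -/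
noncomputable def val : Vx → ℚ
  | g _ => 0
  | f n => - 2 * (1 / 2) ^ n
  | x n => (1 / 2) ^ n

/-- The linear extension. -/
noncomputable def Phi : (Vx →₀ ℤ) →ₗ[ℤ] ℚ := Finsupp.lsum ℤ (fun v => LinearMap.toSpanSingleton ℤ ℚ (val v))

theorem Phi_single (v : Vx) : Phi (Finsupp.single v 1) = val v := by
  simp [Phi]

theorem Phi_rel : relations Gr locFinite B wZ dZ ≤ LinearMap.ker Phi := by
  unfold relations
  rw [Submodule.span_le]
  rintro _ ⟨u, hu, rfl⟩
  rw [mem_compl_B] at hu
  simp only [SetLike.mem_coe, LinearMap.mem_ker]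
  rcases hu with ⟨n, rfl⟩ | ⟨n, rfl⟩
  · rw [lap_x]
    simp only [map_sub, map_smul, Phi_single, val]
    simp
  · rw [lap_g]
    simp only [map_sub, map_smul, Phi_single, val]
    simp
    ring

theorem not_free : ¬ Free ℤ (Upsilon Gr locFinite B wZ dZ) := by
  intro hfree
  set N := relations Gr locFinite B wZ dZ with hN
  set q : (Vx →₀ ℤ) →ₗ[ℤ] ((Vx →₀ ℤ) ⧸ N) := N.mkQ with hq
  -- the elements `y n = x n + g n`
  let y : ℕ → (Vx →₀ ℤ) := fun n => Finsupp.single (x n) 1 + Finsupp.single (g n) 1
  have hy : ∀ n, q (y n) = (2 : ℤ) • q (y (n + 1)) := by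
    intro n
    rw [← map_smul, ← sub_eq_zero, ← map_sub, hq, Submodule.mkQ_apply,
      Submodule.Quotient.mk_eq_zero]
    have e1 : lap Gr locFinite wZ dZ (x (n + 1)) ∈ N :=
      Submodule.subset_span ⟨_, (mem_compl_B _).mpr (Or.inl ⟨_, rfl⟩), rfl⟩
    have e2 : lap Gr locFinite wZ dZ (g (n + 1)) ∈ N :=
      Submodule.subset_span ⟨_, (mem_compl_B _).mpr (Or.inr ⟨_, rfl⟩), rfl⟩
    have e3 := N.sub_mem e1 e2
    rw [lap_x, lap_g] at e3
    convert e3 using 1
    simp only [y]
    module
  have hpow : ∀ k : ℕ, q (y 0) = ((2 : ℤ) ^ k) • q (y k) := by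
    intro k
    induction k with
    | zero => simp
    | succ k ih => rw [ih, hy k, smul_smul, pow_succ]
  have hne : q (y 0) ≠ 0 := by
    intro h
    rw [hq, Submodule.mkQ_apply, Submodule.Quotient.mk_eq_zero] at h
    have := Phi_rel h
    rw [LinearMap.mem_ker] at this
    simp only [y, map_add, Phi_single, val] at this
    norm_num at this
  -- a nonzero coordinate
  let b := Free.chooseBasis ℤ (Upsilon Gr locFinite B wZ dZ)
  obtain ⟨i, hi⟩ : ∃ i, b.repr (q (y 0)) i ≠ 0 := by
    by_contra hcon
    push Not at hcon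
    apply hne
    apply b.repr.injective
    rw [map_zero]
    ext i
    exact hcon i
  have hdvd : ∀ k : ℕ, (2 : ℤ) ^ k ∣ b.repr (q (y 0)) i := by
    intro k
    rw [hpow k, map_smul, Finsupp.smul_apply, smul_eq_mul]
    exact dvd_mul_right _ _
  set c := b.repr (q (y 0)) i with hc
  have h1 := hdvd c.natAbs
  have h2 : (2 : ℤ) ^ c.natAbs ≤ |c| := by
    have := Int.le_of_dvd (abs_pos.mpr hi) ((dvd_abs _ _).mpr h1)
    exact this
  have h3 : (c.natAbs : ℤ) < 2 ^ c.natAbs := by exact_mod_cast Nat.lt_two_pow_self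
  have h4 : (c.natAbs : ℤ) = |c| := by simp
  omega

/-- There is an infinite graph with boundary all of whose fundamental modules are flat, but one of
them is not free. -/
theorem result : ∃ (V : Type) (_ : Countable V) (_ : Infinite V) (G : SimpleGraph V)
    (hlf : ∀ v, (G.neighborSet v).Finite) (B : Set V),
    (∀ (R : Type u) [CommRing R] (w : V → V → R) (d : V → R), IsNetwork G w →
      Flat R (Upsilon G hlf B w d)) ∧
    ∃ (w : V → V → ℤ) (d : V → ℤ), IsNetwork G w ∧ ¬ Free ℤ (Upsilon G hlf B w d) := by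
  refine ⟨Vx, ?_, ?_, Gr, locFinite, B, fun R _ w d hw => flat w d hw, wZ, dZ,
    ⟨fun _ _ => rfl, fun _ _ _ => isUnit_one⟩, not_free⟩
  · have : Function.Injective (fun v : Vx => match v with
        | g n => ((0 : Fin 3), n)
        | f n => ((1 : Fin 3), n)
        | x n => ((2 : Fin 3), n)) := by
      intro u v h
      cases u <;> cases v <;> simp_all
    exact this.countable
  · exact Infinite.of_injective g (fun a b h => by simpa using h)

end Pool.Agent.Results.MP_2ddb17_co.FlatNotFree
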